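import Mathlib
import Pool.Agent.R717.Seq.Tern

set_option autoImplicit false

namespace Pool.Agent.Results.MP_fa571f_co.BlindStrategy

open Pool.Agent.R717.Seq

/-- The sequence after `n` moves of the biased game. Moves are numbered from `0`; Player 1 makes
the moves with even number and appends a symbol from `{0, 1, 2}` which may depend on everything
played so far; Player 2 makes the moves with odd number and appends a symbol from `{0, 1}`, which
may also depend on everything played so far. -/
def play (σ : List (Fin 3) → Fin 3) (τ : List (Fin 3) → Fin 2) : ℕ → List (Fin 3)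
  | 0 => []
  | n + 1 =>
    if n % 2 = 0 then play σ τ n ++ [σ (play σ τ n)]
    else play σ τ n ++ [(τ (play σ τ n)).castSucc]

/-- The sequence has a factor `x x` with `x` a block of at least two symbols. -/
def HasSquare (L : List (Fin 3)) : Prop := ∃ x : List (Fin 3), 2 ≤ x.length ∧ (x ++ x) <:+: L

/-! ### the infinite word -/

def Lw (n : ℕ) : List (Fin 3) := G (Ph^[n] [0])

theorem iter_append (n : ℕ) (A B : List (Fin 5)) : Ph^[n] (A ++ B) = Ph^[n] A ++ Ph^[n] B := by
  induction n generalizing A B with
  | zero => rfl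
  | succ n ih => rw [Function.iterate_succ_apply, Function.iterate_succ_apply,
      Function.iterate_succ_apply, Ph_append, ih]

theorem iter_ne (n : ℕ) (a : Fin 5) : Ph^[n] [a] ≠ [] := by
  induction n with
  | zero => simp
  | succ n ih =>
    rw [Function.iterate_succ_apply']
    intro h
    exact ih (nl h)

theorem G_ne {P : List (Fin 5)} (h : P ≠ []) : G P ≠ [] := by
  rcases P with _ | ⟨a, P⟩
  · exact absurd rfl h
  · fin_cases a <;> simp [gg]

theorem Lw_succ (n : ℕ) : ∃ Z, Z ≠ [] ∧ Lw (n + 1) = Lw n ++ Z := by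
  refine ⟨G (Ph^[n] [1]), G_ne (iter_ne n 1), ?_⟩
  have : Ph^[n + 1] [0] = Ph^[n] [0] ++ Ph^[n] [1] := by
    rw [Function.iterate_succ_apply, ← iter_append]
    rfl
  simp [Lw, this]

theorem Lw_len (n : ℕ) : n + 1 ≤ (Lw n).length := by
  induction n with
  | zero => simp [Lw, gg]
  | succ n ih =>
    obtain ⟨Z, hZ, h⟩ := Lw_succ n
    rw [h, List.length_append]
    have := List.length_pos_iff.2 hZ
    omega

theorem Lw_add (n m : ℕ) : ∃ Z, Lw (n + m) = Lw n ++ Z := by
  induction m with
  | zero => exact ⟨[], by simp⟩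
  | succ m ih =>
    obtain ⟨Z, hZ⟩ := ih
    obtain ⟨Z', _, h⟩ := Lw_succ (n + m)
    exact ⟨Z ++ Z', by rw [← add_assoc, h, hZ, List.append_assoc]⟩

/-- the word played by Player 1 -/
def w (i : ℕ) : Fin 3 := (Lw i).getD i 0

theorem w_eq {i n : ℕ} (h : i ≤ n) : (Lw n)[i]? = some (w i) := by
  obtain ⟨m, rfl⟩ := Nat.exists_eq_add_of_le h
  obtain ⟨Z, hZ⟩ := Lw_add i m
  have hl := Lw_len i
  rw [hZ, List.getElem?_append_left (by omega), w, List.getD_eq_getElem?_getD]
  rw [List.getElem?_eq_getElem (by omega)]
  simp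

/-- a window of a sequence -/
def seg (s : ℕ → Fin 3) (k n : ℕ) : List (Fin 3) := (List.range n).map fun j => s (k + j)

theorem seg_add (s : ℕ → Fin 3) (k a b : ℕ) : seg s k (a + b) = seg s k a ++ seg s (k + a) b := by
  simp [seg, List.range_add, Function.comp_def, add_assoc]

theorem seg_len (s : ℕ → Fin 3) (k a : ℕ) : (seg s k a).length = a := by simp [seg]

theorem seg_get (s : ℕ → Fin 3) {k a j : ℕ} (h : j < a) : (seg s k a)[j]? = some (s (k + j)) := by
  simp [seg, h]

theorem Lw_seg (N : ℕ) : ∃ Z, Lw N = seg w 0 N ++ Z := by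
  refine ⟨(Lw N).drop N, ?_⟩
  conv_lhs => rw [← List.take_append_drop N (Lw N)]
  congr 1
  apply List.ext_getElem?
  intro i
  by_cases hi : i < N
  · rw [List.getElem?_take_of_lt hi, w_eq hi.le, seg_get w hi, zero_add]
  · have hl := Lw_len N
    rw [List.getElem?_eq_none (by rw [List.length_take]; omega),
      List.getElem?_eq_none (by rw [seg_len]; omega)]

/-- the word has no squares -/
theorem w_sq (k r : ℕ) (hr : 1 ≤ r) : ¬ ∀ j < r, w (k + j) = w (k + r + j) := by
  intro h
  obtain ⟨Z, hZ⟩ := Lw_seg (k + (r + (r + 3)))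
  rw [seg_add, seg_add, seg_add, zero_add] at hZ
  have e : seg w (k + r) r = seg w k r := by
    simp only [seg]
    apply List.map_congr_left
    intro j hj
    exact (h j (List.mem_range.1 hj)).symm
  rw [e] at hZ
  have := sqG (good_iter (k + (r + (r + 3)))) (X := seg w 0 k) (V := seg w k r)
    (Y := seg w (k + r + r) 3 ++ Z) (by rw [List.length_append, seg_len]; omega)
    (by rw [← Lw, hZ]; simp)
  have hl := congrArg List.length this
  rw [seg_len] at hl
  simp at hl
  omega

/-- among three consecutive symbols there is a `2` -/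
theorem w_two (k : ℕ) : w k = 2 ∨ w (k + 1) = 2 ∨ w (k + 2) = 2 := by
  obtain ⟨Z, hZ⟩ := Lw_seg (k + 4)
  rw [seg_add, zero_add] at hZ
  have := K_of (good_iter (k + 4)) (X := seg w 0 k) (Y := Z) (a := w k) (b := w (k + 1))
    (c := w (k + 2)) (d := w (k + 3)) (by
      rw [← Lw, hZ]; simp [seg, List.range_succ])
  exact this.2.2.2.2

/-! ### the game -/

theorem play_len (σ : List (Fin 3) → Fin 3) (τ : List (Fin 3) → Fin 2) (n : ℕ) :
    (play σ τ n).length = n := by
  induction n with
  | zero => rfl
  | succ n ih => rw [play]; split_ifs <;> simp [ih]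

/-- the strategy which does not look at the moves of Player 2 -/
def blind (h : List (Fin 3)) : Fin 3 := w (h.length / 2)

theorem play_seg (τ : List (Fin 3) → Fin 2) : ∃ s : ℕ → Fin 3,
    (∀ n, play blind τ n = seg s 0 n) ∧ (∀ k, s (2 * k) = w k) ∧ ∀ k, s (2 * k + 1) ≠ 2 := by
  let s : ℕ → Fin 3 := fun n =>
    if n % 2 = 0 then blind (play blind τ n) else (τ (play blind τ n)).castSucc
  refine ⟨s, ?_, ?_, ?_⟩
  · intro n
    induction n with
    | zero => rfl
    | succ n ih =>
      rw [seg_add, zero_add, ← ih, play]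
      have : seg s n 1 = [s n] := by simp [seg, List.range_succ]
      rw [this]
      simp only [s]
      split_ifs <;> rfl
  · intro k
    simp [s, blind, play_len]
  · intro k h
    have h2 : (2 * k + 1) % 2 ≠ 0 := by omega
    simp only [s, if_neg h2] at h
    have := (τ (play blind τ (2 * k + 1))).isLt
    have h3 := congrArg Fin.val h
    simp at h3
    omega

theorem noSquare {s : ℕ → Fin 3} (h0 : ∀ k, s (2 * k) = w k) (h1 : ∀ k, s (2 * k + 1) ≠ 2)
    (k r : ℕ) (hr : 2 ≤ r) : ¬ ∀ j < r, s (k + j) = s (k + r + j) := by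
  intro h
  obtain ⟨c, hc⟩ : ∃ c, 2 * c = k ∨ 2 * c = k + 1 := by
    rcases Nat.even_or_odd' k with ⟨c, hc | hc⟩
    · exact ⟨c, Or.inl hc.symm⟩
    · exact ⟨c + 1, Or.inr (by omega)⟩
  rcases Nat.even_or_odd' r with ⟨m, rfl | rfl⟩
  · apply w_sq c m (by omega)
    intro j hj
    have := h (2 * c - k + 2 * j) (by omega)
    rw [show k + (2 * c - k + 2 * j) = 2 * (c + j) by omega,
      show k + 2 * m + (2 * c - k + 2 * j) = 2 * (c + m + j) by omega, h0, h0] at this
    exact this
  · have key : ∀ p, k ≤ 2 * p → 2 * p < k + 2 * (2 * m + 1) → w p ≠ 2 := by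
      intro p hp1 hp2 hw
      rw [← h0] at hw
      by_cases hp : 2 * p < k + (2 * m + 1)
      · have := h (2 * p - k) (by omega)
        rw [show k + (2 * p - k) = 2 * p by omega,
          show k + (2 * m + 1) + (2 * p - k) = 2 * (p + m) + 1 by omega, hw] at this
        exact h1 _ this.symm
      · have := h (2 * p - k - (2 * m + 1)) (by omega)
        rw [show k + (2 * m + 1) + (2 * p - k - (2 * m + 1)) = 2 * p by omega,
          show k + (2 * p - k - (2 * m + 1)) = 2 * (p - m - 1) + 1 by omega, hw] at this
        exact h1 _ this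
    rcases w_two c with h2 | h2 | h2
    · exact key c (by omega) (by omega) h2
    · exact key (c + 1) (by omega) (by omega) h2
    · exact key (c + 2) (by omega) (by omega) h2

/-- Player 1 has a winning strategy in the biased game, and the strategy can be chosen so that it
ignores the moves of Player 2: there is a fixed infinite word `v` over `{0, 1, 2}` such that
Player 1 never creates (nor lets Player 2 create) a square of a nonsingleton block if he plays
`v 0, v 1, v 2, ...`. -/
theorem result : ∃ v : ℕ → Fin 3, ∃ σ : List (Fin 3) → Fin 3,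
    (∀ h, σ h = v (h.length / 2)) ∧ ∀ τ : List (Fin 3) → Fin 2, ∀ n, ¬ HasSquare (play σ τ n) := by
  refine ⟨w, blind, fun _ => rfl, ?_⟩
  rintro τ n ⟨x, hx, X, Y, hX⟩
  obtain ⟨s, hs, h0, h1⟩ := play_seg τ
  apply noSquare h0 h1 X.length x.length hx
  intro j hj
  rw [hs] at hX
  have hlen := congrArg List.length hX
  simp only [List.length_append, seg_len] at hlen
  have e1 : (X ++ (x ++ x) ++ Y)[X.length + j]? = some x[j] := by
    rw [List.append_assoc, List.getElem?_append_right (by omega), Nat.add_sub_cancel_left,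
      List.append_assoc, List.getElem?_append_left hj, List.getElem?_eq_getElem hj]
  have e2 : (X ++ (x ++ x) ++ Y)[X.length + x.length + j]? = some x[j] := by
    rw [List.append_assoc, List.getElem?_append_right (by omega),
      show X.length + x.length + j - X.length = x.length + j by omega,
      List.append_assoc, List.getElem?_append_right (by omega), Nat.add_sub_cancel_left,
      List.getElem?_append_left hj, List.getElem?_eq_getElem hj]
  rw [hX, seg_get s (by omega), zero_add] at e1 e2
  exact (Option.some.inj e1).trans (Option.some.inj e2).symm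

end Pool.Agent.Results.MP_fa571f_co.BlindStrategy
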